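import Pool.Agent.R502.AQ.AP

set_option autoImplicit false

/-! # Prime moduli: long runs without primes in almost all classes

For moduli `q` without prime factors up to `q ^ δ`, in particular for all primes `q`, for every `λ`
and for almost all the classes `a` modulo `q` (also in intervals of `q ^ δ` classes) a positive
proportion of the blocks of `λ log q` consecutive members of the class, among the first
`K λ log q` members, consist of integers with a prime factor at most `q ^ δ`.  In particular almost
every class has a gap longer than `λ q log q` between consecutive primes, below `K λ q log q`, for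
every `λ`.

Proof: the integers `a q⁻¹`, where `q⁻¹` is an inverse of `q` modulo the primes up to a small power
of `q`, are well distributed; the Selberg type weights for blocks of `Pool/Agent/R526/AA` apply to
them after a modification of the proof (`Pool/Agent/R502/AQ`). -/

namespace Pool.Agent.Results.MP_458f0b_nt.LongRunsInAlmostAllClasses

/-- Among the `K` consecutive blocks `a + j q`, `i l ≤ j < (i + 1) l`, `i < K`, of `l` members of
the class of `a` modulo `q`, the number of those all of whose members have a prime factor at most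
`z`. -/
noncomputable def freeBlocks (z : ℝ) (q l K a : ℕ) : ℕ := by
  classical
  exact ((Finset.range K).filter (fun i => ∀ j ∈ Finset.Ico (i * l) ((i + 1) * l),
    ∃ p : ℕ, p.Prime ∧ (p : ℝ) ≤ z ∧ p ∣ a + j * q)).card

theorem result (δ lam ε : ℝ) (hδ : 0 < δ) (hδ1 : δ ≤ 1) (hlam : 0 < lam) (hε : 0 < ε) :
    ∃ c : ℝ, 0 < c ∧ ∃ K₀ : ℕ, ∀ K : ℕ, K₀ ≤ K → ∃ q₀ : ℕ, ∀ q : ℕ, q₀ ≤ q →
      (∀ p : ℕ, p.Prime → p ∣ q → (q : ℝ) ^ δ < p) →
      ∀ A y : ℕ, 1 ≤ A → A + y ≤ 2 * q → (q : ℝ) ^ δ ≤ y →
      (((Finset.Ico A (A + y)).filter (fun a =>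
        (freeBlocks ((q : ℝ) ^ δ) q ⌈lam * Real.log q⌉₊ K a : ℝ) < c * K)).card : ℝ) ≤ ε * y := by
  classical
  obtain ⟨c, hc, K₀, h⟩ := Pool.Agent.R502.AQ.ap_almost δ lam ε hδ hδ1 hlam hε
  refine ⟨c, hc, K₀, fun K hK => ?_⟩
  obtain ⟨q₀, hq₀⟩ := h K hK
  refine ⟨q₀, fun q hq hqp A y hA hAy hy => ?_⟩
  refine le_trans (le_of_eq ?_) (hq₀ q hq hqp A y hA hAy hy)
  unfold freeBlocks Pool.Agent.R502.AQ.Gd
  congr!

end Pool.Agent.Results.MP_458f0b_nt.LongRunsInAlmostAllClasses
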