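import Pool.Agent.R502.FG.Fin

set_option autoImplicit false

/-! # Every modulus: a positive proportion of the classes have least prime above `(1 + c) φ(q) log q`

A question of Erdős (1949), who proved it for infinitely many moduli. -/

namespace Pool.Agent.Results.MP_458f0b_nt.PositiveProportionNoSmallPrime

open Finset

/-- There are `c > 0` and `q₀` such that for EVERY modulus `q ≥ q₀`, at least `c φ(q)` of the reduced residue
classes `a` modulo `q` contain no prime up to `(1 + c) φ(q) log q`. -/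
theorem result : ∃ c : ℝ, 0 < c ∧ ∃ q₀ : ℕ, ∀ q : ℕ, q₀ ≤ q →
    c * Nat.totient q ≤ ({a : ℕ | a < q ∧ a.Coprime q ∧ ∀ p : ℕ, p.Prime → p ≡ a [MOD q] →
      (1 + c) * (Nat.totient q * Real.log q) < p}.ncard : ℝ) := by
  classical
  obtain ⟨c, hc, h⟩ := Pool.Agent.R502.FG.no_prime
  obtain ⟨q₀, hq₀⟩ := Filter.eventually_atTop.1 h
  refine ⟨c, hc, q₀, fun q hq => (hq₀ q hq).trans (le_of_eq ?_)⟩
  rw [← Set.ncard_coe_finset]
  congr 2
  ext a
  unfold Pool.Agent.R502.FG.Zed
  rw [mem_coe, mem_filter, mem_range]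
  rfl

end Pool.Agent.Results.MP_458f0b_nt.PositiveProportionNoSmallPrime
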