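import Pool.Agent.R502.TQ.Fin

/-!
# Prime moduli: the classes `-r`, `a r` of the primes `r`, and their least primes

Fix `δ, λ > 0` and `A`.  For every large prime `q` and every `X ≥ q ^ δ` with `2 X + 2 < q`, a
positive proportion of the primes `r` in `(X, 2 X]` have the following properties: `r` is the only
prime up to `λ q log q` in its class modulo `q`; the class of `-r` contains no prime up to
`λ q log q`; and no prime `n` with `q < n ≤ λ q log q` is congruent to a rational multiple
`(a / d) r`, `1 ≤ d ≤ A`, `|a| ≤ A`, modulo `q`.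

Proof: the residue classes of `r` modulo the small primes are twisted by those of `q`
(`Pool/Agent/R502/TW`, `Pool/Agent/R502/TQ`); the Selberg type weights for blocks of
`Pool/Agent/R526/AA`, extended to classes in `Pool/Agent/R502/AQ`, the Bombieri-Vinogradov theorem.
-/

set_option autoImplicit false

namespace Pool.Agent.Results.MP_458f0b_nt.SmallClassesAvoided

open Finset

open Classical in
/-- For every prime modulus `q ≥ q₀` and `X ≥ q ^ δ`, `2 X + 2 < q`, a positive proportion of the
primes `r ∈ (X, 2 X]` are the only primes up to `λ q log q` in their class; the class of `-r` has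
no prime up to `λ q log q`; neither have the classes of `a r`, `2 ≤ a ≤ A`, if `2 A X < q`; and
the fractions `a r / d` of small height are avoided by the primes in `(q, λ q log q]`. -/
theorem result (δ lam : ℝ) (hδ : 0 < δ) (hlam : 0 < lam) (A : ℕ) :
    ∃ c : ℝ, 0 < c ∧ ∃ q₀ : ℕ, ∀ q : ℕ, q₀ ≤ q → q.Prime → ∀ X : ℕ, (q : ℝ) ^ δ ≤ X →
      2 * X + 2 < q → c * Nat.primeCounting X ≤ (((Ioc X (2 * X)).filter (fun r : ℕ => r.Prime ∧
        ∀ n : ℕ, n.Prime → (n : ℝ) ≤ lam * q * Real.log q →
          ((q : ℤ) ∣ n - r → n = r) ∧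
          ¬ (q : ℤ) ∣ n + r ∧
          (2 * A * X < q → ∀ a : ℕ, 2 ≤ a → a ≤ A → ¬ (q : ℤ) ∣ n - a * r) ∧
          (q < n → ∀ d a : ℤ, 1 ≤ d → d ≤ A → |a| ≤ A → ¬ (q : ℤ) ∣ d * n - a * r))).card : ℝ) := by
  obtain ⟨c, hc, q₀, h⟩ := Pool.Agent.R502.TQ.classes_pos δ lam hδ hlam (A + 1)
  refine ⟨c, hc, q₀ + 8, fun q hq hqp X hX h2X => ?_⟩
  refine (h q (by omega) hqp X hX (by omega)).trans ?_
  apply Nat.cast_le.2
  apply card_le_card
  intro r hr
  rw [mem_filter, mem_Ioc] at hr ⊢
  obtain ⟨⟨hr1, hr2⟩, hrp, hG⟩ := hr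
  refine ⟨⟨hr1, hr2⟩, hrp, fun n hn hnl => ?_⟩
  have hX1 : 1 ≤ X := by
    have h1 : (0 : ℝ) < (q : ℝ) ^ δ := Real.rpow_pos_of_pos (by exact_mod_cast hqp.pos) _
    have h2 : (0 : ℝ) < X := h1.trans_le hX
    exact_mod_cast h2
  have hr0 : 0 < r := hrp.pos
  have hbig : ∀ d a : ℤ, 1 ≤ d → d ≤ ((A + 1 : ℕ) : ℤ) → |a| ≤ ((A + 1 : ℕ) : ℤ) → q < n →
      ¬ (q : ℤ) ∣ d * n - a * r := fun d a hd1 hd2 ha hqn => hG n hn hqn hnl d a hd1 hd2 ha
  refine ⟨?_, ?_, ?_, ?_⟩
  · intro hd
    by_cases hqn : q < n
    · exfalso
      refine hbig 1 1 le_rfl (by push_cast; omega) (by rw [abs_one]; push_cast; omega) hqn ?_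
      simpa using hd
    · have h1 : (q : ℤ) ∣ (n : ℤ) - r := hd
      by_contra hne
      have h2 : ((n : ℤ) - r) ≠ 0 := by
        intro h3
        apply hne
        exact_mod_cast (sub_eq_zero.1 h3)
      have h3 := Int.le_of_dvd (abs_pos.2 h2) ((dvd_abs _ _).2 h1)
      have h4 : |(n : ℤ) - r| < q := by
        rw [abs_lt]
        constructor <;> omega
      omega
  · intro hd
    by_cases hqn : q < n
    · refine hbig 1 (-1) le_rfl (by push_cast; omega) (by rw [abs_neg, abs_one]; push_cast; omega)
        hqn ?_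
      have h1 : (1 : ℤ) * n - (-1) * r = n + r := by ring
      rw [h1]
      exact hd
    · have h1 : q ∣ n + r := by exact_mod_cast hd
      obtain ⟨k, hk⟩ := h1
      have hk1 : k = 1 := by
        have h2 : 0 < k := by
          rcases Nat.eq_zero_or_pos k with h3 | h3
          · rw [h3, mul_zero] at hk
            omega
          · exact h3
        have h3 : k < 2 := by
          by_contra h4
          push Not at h4
          have h5 : q * 2 ≤ q * k := Nat.mul_le_mul_left _ h4
          omega
        omega
      rw [hk1, mul_one] at hk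
      have hq2 : q % 2 = 1 := hqp.eq_two_or_odd.resolve_left (by omega)
      rcases hn.eq_two_or_odd with h2 | h2
      · omega
      · rcases hrp.eq_two_or_odd with h3 | h3
        · -- r = 2, X = 1
          have : X = 1 := by omega
          have h5 : (q : ℝ) ^ δ ≤ 1 := by rw [this] at hX; simpa using hX
          have h6 : (1 : ℝ) < (q : ℝ) ^ δ :=
            Real.one_lt_rpow (by exact_mod_cast hqp.one_lt) hδ
          linarith
        · omega
  · intro hA a ha2 haA hd
    by_cases hqn : q < n
    · refine hbig 1 a le_rfl (by push_cast; omega) ?_ hqn ?_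
      · rw [abs_of_nonneg (by positivity)]
        push_cast
        omega
      · simpa using hd
    · have har : a * r < q := by
        calc a * r ≤ A * (2 * X) := Nat.mul_le_mul haA hr2
          _ = 2 * A * X := by ring
          _ < q := hA
      have h1 : (q : ℤ) ∣ (n : ℤ) - ((a * r : ℕ) : ℤ) := by
        push_cast
        exact hd
      by_cases hne : n = a * r
      · rw [hne] at hn
        exact Nat.not_prime_mul (by omega) hrp.one_lt.ne' hn
      · have h2 : ((n : ℤ) - ((a * r : ℕ) : ℤ)) ≠ 0 := by
          intro h3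
          apply hne
          exact_mod_cast (sub_eq_zero.1 h3)
        have h3 := Int.le_of_dvd (abs_pos.2 h2) ((dvd_abs _ _).2 h1)
        by_cases hnq : n = q
        · -- then q divides a r
          rw [hnq] at h1
          have h4 : (q : ℤ) ∣ ((a * r : ℕ) : ℤ) := by
            have := Int.dvd_sub (dvd_refl (q : ℤ)) h1
            simpa using this
          have h5 : q ∣ a * r := by exact_mod_cast h4
          have := Nat.le_of_dvd (by positivity) h5
          omega
        · have hnq' : n < q := by omega
          have h4 : |(n : ℤ) - ((a * r : ℕ) : ℤ)| < q := by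
            rw [abs_lt]
            constructor <;> omega
          omega
  · intro hqn d a hd1 hdA haA
    exact hbig d a hd1 (by push_cast; omega) (haA.trans (by push_cast; omega)) hqn

end Pool.Agent.Results.MP_458f0b_nt.SmallClassesAvoided
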