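import Mathlib
import Pool.Agent.R528.RM.Wag8

set_option autoImplicit false

/-!
# Wagstaff's asymptotic in random models of the primes

Wagstaff's asymptotic `p(d) ~ φ(d) (log d)²` for the largest least prime of the classes modulo `d`
was proposed on probabilistic grounds.  We decide what happens in EVERY sequential random model of
the primes: the integers are decided one after the other, only integers coprime to a fixed `Q` can
be chosen, and the conditional probability of choosing `n + 1` (coprime to `Q`) given the past is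
asymptotic to `(Q / φ(Q)) / log n`; no independence is assumed (for `Q = 1` Cramér's model and the
Hawkins random sieve are examples).  Let `P(q)` be the largest least member of the admissible
classes modulo `q`, and `φ_Q(q)` the number of these classes.  Almost surely

* `limsup P(q) / (φ_Q(q) (log q)²) = 2` and `liminf P(q) / (φ_Q(q) (log q)²) = 1`;
* for every `1 < c < 2` the number of `q ≤ X` with `P(q) > c φ_Q(q) (log q)²` is `X ^ (2 - c + o(1))`.

So in all these models the asymptotic holds for almost all moduli, with an exceptional set of size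
exactly `X ^ (1 - ε + o(1))`, and it fails for infinitely many moduli.
-/

open MeasureTheory Filter
open scoped Topology

namespace Pool.Agent.Results.MP_458f0b_nt.WagstaffRandomModels

/-- the number of admissible classes: residues `a` modulo `q` without common factor with
`gcd(q, Q)` -/
def phiQ (Q q : ℕ) : ℕ := ((Finset.range q).filter (fun a => Nat.Coprime a (Nat.gcd q Q))).card

/-- the least `N` such that every admissible class modulo `q` has an element of `S` up to `N` -/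
noncomputable def P (S : Set ℕ) (Q q : ℕ) : ℕ :=
  sInf {N : ℕ | ∀ a, Nat.Coprime a (Nat.gcd q Q) → ∃ n ∈ S, n ≤ N ∧ n ≡ a [MOD q]}

/-- the number of moduli `q ≤ X` with `P(q) > c φ_Q(q) (log q)²` -/
noncomputable def exceptional (S : Set ℕ) (Q : ℕ) (c : ℝ) (X : ℕ) : ℕ :=
  Set.ncard {q : ℕ | q ≤ X ∧ c * phiQ Q q * Real.log q ^ 2 < P S Q q}

open Pool.Agent.R528.RM

lemma hits_iff {Ω : Type} {A : ℕ → Set Ω} {Q q : ℕ} (hq : 0 < q) (ω : Ω) (N : ℕ) :
    (∀ a, Nat.Coprime a (Nat.gcd q Q) → ∃ n ∈ {k | ω ∈ A k}, n ≤ N ∧ n ≡ a [MOD q]) ↔ ω ∉ SvE A Q q N := by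
  constructor
  · rintro h ⟨a, ha, h1⟩
    obtain ⟨h2, h3⟩ := mem_adm.1 ha
    obtain ⟨n, hn1, hn2, hn3⟩ := h a h3
    refine h1 n hn2 ?_ hn1
    rw [Nat.ModEq] at hn3
    rw [hn3, Nat.mod_eq_of_lt h2]
  · intro h a ha
    have h1 : a % q ∈ adm Q q := by
      refine mem_adm.2 ⟨Nat.mod_lt _ hq, ?_⟩
      rw [Nat.coprime_iff_gcd_eq_one] at *
      by_contra hne
      obtain ⟨p, hp, hpd⟩ := Nat.exists_prime_and_dvd hne
      have hp1 : p ∣ a % q := hpd.trans (Nat.gcd_dvd_left _ _)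
      have hp2 : p ∣ Nat.gcd q Q := hpd.trans (Nat.gcd_dvd_right _ _)
      have hp3 : p ∣ a := (Nat.dvd_mod_iff (hp2.trans (Nat.gcd_dvd_left _ _))).1 hp1
      have h9 : p ∣ Nat.gcd a (Nat.gcd q Q) := Nat.dvd_gcd hp3 hp2
      rw [ha] at h9
      exact hp.one_lt.ne' (Nat.dvd_one.1 h9)
    by_contra hcon
    push Not at hcon
    apply h
    refine ⟨a % q, h1, fun n hn1 hn2 hn3 => ?_⟩
    exact hcon n hn3 hn1 hn2

lemma lt_P_iff {Ω : Type} {A : ℕ → Set Ω} {Q q : ℕ} (hq : 0 < q) (ω : Ω) {N : ℕ} (hN : ω ∉ SvE A Q q N) (M : ℕ) :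
    M < P {k | ω ∈ A k} Q q ↔ ω ∈ SvE A Q q M := by
  set H : Set ℕ := {N : ℕ | ∀ a, Nat.Coprime a (Nat.gcd q Q) → ∃ n ∈ {k | ω ∈ A k}, n ≤ N ∧ n ≡ a [MOD q]} with hH
  have hne : H.Nonempty := ⟨N, (hits_iff hq ω N).2 hN⟩
  have hmem : P {k | ω ∈ A k} Q q ∈ H := Nat.sInf_mem hne
  constructor
  · intro h
    by_contra hcon
    have h1 : M ∈ H := (hits_iff hq ω M).2 hcon
    exact Nat.notMem_of_lt_sInf h h1
  · intro h
    by_contra hcon
    push Not at hcon
    have h1 : ω ∉ SvE A Q q (P {k | ω ∈ A k} Q q) := (hits_iff hq ω _).1 hmem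
    exact h1 (SvE_anti hcon h)

lemma phiQ_eq (Q q : ℕ) : phiQ Q q = (adm Q q).card := rfl

lemma real_lt_P_iff {Ω : Type} {A : ℕ → Set Ω} {Q q : ℕ} (hq : 0 < q) (ω : Ω) {N : ℕ} (hN : ω ∉ SvE A Q q N)
    {c : ℝ} (hc : 0 ≤ c) :
    c * phiQ Q q * Real.log q ^ 2 < P {k | ω ∈ A k} Q q ↔ ω ∈ SvE A Q q (TT Q c q) := by
  rw [← lt_P_iff hq ω hN, phiQ_eq]
  unfold TT
  rw [Nat.floor_lt (by positivity)]

lemma lim_of_bounds {f : ℕ → ℕ} {a : ℝ} (h : ∀ ε : ℝ, 0 < ε → ∀ᶠ X : ℕ in atTop, (X : ℝ) ^ (a - ε) ≤ f X ∧ (f X : ℝ) ≤ (X : ℝ) ^ (a + ε)) :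
    Tendsto (fun X : ℕ => Real.log (f X) / Real.log X) atTop (𝓝 a) := by
  rw [Metric.tendsto_nhds]
  intro ε hε
  filter_upwards [h (ε / 2) (by linarith), eventually_gt_atTop 1] with X h1 h2
  have hX : (1 : ℝ) < X := by exact_mod_cast h2
  have hXp : (0 : ℝ) < X := by linarith
  have hl : 0 < Real.log (X : ℝ) := Real.log_pos hX
  have hp : 0 < (X : ℝ) ^ (a - ε / 2) := Real.rpow_pos_of_pos hXp _
  have h3 := Real.log_le_log hp h1.1
  have h4 := Real.log_le_log (hp.trans_le h1.1) h1.2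
  rw [Real.log_rpow hXp] at h3 h4
  have h5 : a - ε / 2 ≤ Real.log (f X) / Real.log X := by rw [le_div_iff₀ hl]; exact h3
  have h6 : Real.log (f X) / Real.log X ≤ a + ε / 2 := by rw [div_le_iff₀ hl]; exact h4
  rw [Real.dist_eq, abs_lt]
  constructor <;> linarith

end Pool.Agent.Results.MP_458f0b_nt.WagstaffRandomModels

open Pool.Agent.Results.MP_458f0b_nt.WagstaffRandomModels

/-- Let `A n` be the event that `n` belongs to a random set adapted to a filtration `ℱ`, let
`Q ≥ 1`, let no integer which is not coprime to `Q` be chosen, and let the conditional probability of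
`A (n + 1)` given `ℱ n`, times `log n`, tend to `Q / φ(Q)` along the `n` with `n + 1` coprime to `Q`,
almost surely.  Then almost surely: for all large `q` every admissible class modulo `q` contains a
member; for every `ε > 0` and all large `q`,
`(1 - ε) φ_Q(q) (log q)² < P(q) < (2 + ε) φ_Q(q) (log q)²`; and for every `1 < c < 2` the number of
`q ≤ X` with `P(q) > c φ_Q(q) (log q)²` is `X ^ (2 - c + o(1))`. -/
theorem Pool.Agent.Results.MP_458f0b_nt.WagstaffRandomModels.result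
    {Ω : Type} [mΩ : MeasurableSpace Ω] (μ : Measure Ω) [IsProbabilityMeasure μ]
    (ℱ : Filtration ℕ mΩ) (A : ℕ → Set Ω) (hA : ∀ n, MeasurableSet[ℱ n] (A n))
    (Q : ℕ) (hQ : 0 < Q) (hcop : ∀ n, ¬ Nat.Coprime n Q → A n = ∅)
    (hd : ∀ᵐ ω ∂μ, Tendsto (fun n : ℕ =>
      (μ[(A (n + 1)).indicator (fun _ => (1 : ℝ)) | ℱ n]) ω * Real.log n)
      (atTop ⊓ 𝓟 {n : ℕ | Nat.Coprime (n + 1) Q}) (𝓝 ((Q : ℝ) / Nat.totient Q))) :
    ∀ᵐ ω ∂μ,
      (∀ᶠ q : ℕ in atTop, ∀ a, Nat.Coprime a (Nat.gcd q Q) → ∃ n ∈ {k | ω ∈ A k}, n ≡ a [MOD q]) ∧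
      (∀ ε : ℝ, 0 < ε → ∀ᶠ q : ℕ in atTop,
        (1 - ε) * phiQ Q q * Real.log q ^ 2 < P {k | ω ∈ A k} Q q ∧
        (P {k | ω ∈ A k} Q q : ℝ) < (2 + ε) * phiQ Q q * Real.log q ^ 2) ∧
      (∀ c : ℝ, 1 < c → c < 2 → Tendsto (fun X : ℕ =>
        Real.log (exceptional {k | ω ∈ A k} Q c X) / Real.log X) atTop (𝓝 (2 - c))) := by
  classical
  have hprof := Pool.Agent.R528.RM.dens_profile (μ := μ) (ℱ := ℱ) hA Q hQ hcop hd
  filter_upwards [Pool.Agent.R528.RM.F3 hA hQ hprof, Pool.Agent.R528.RM.F12 hA hQ hprof] with ω h3 h12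
  obtain ⟨h1, h2⟩ := h12
  obtain ⟨q₀, hq₀⟩ := eventually_atTop.1 (h1 3 (by norm_num))
  refine ⟨?_, ?_, ?_⟩
  · filter_upwards [eventually_ge_atTop q₀, eventually_gt_atTop 0] with q hq hq0 a ha
    obtain ⟨n, hn1, _, hn2⟩ := (hits_iff hq0 ω _).2 (hq₀ q hq) a ha
    exact ⟨n, hn1, hn2⟩
  · intro ε hε
    have hlow : ∀ᶠ q : ℕ in atTop, ω ∈ Pool.Agent.R528.RM.SvE A Q q (Pool.Agent.R528.RM.TT Q (max 0 (1 - ε)) q) :=
      h2 _ (max_lt one_pos (by linarith))
    filter_upwards [eventually_ge_atTop q₀, eventually_gt_atTop 1, hlow, h1 (2 + ε / 2) (by linarith)] with q hq hq1 g1 g2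
    have hq0 : 0 < q := by omega
    constructor
    · have g3 := (real_lt_P_iff hq0 ω (hq₀ q hq) (le_max_left 0 (1 - ε))).2 g1
      refine lt_of_le_of_lt ?_ g3
      apply mul_le_mul_of_nonneg_right _ (sq_nonneg _)
      exact mul_le_mul_of_nonneg_right (le_max_right _ _) (Nat.cast_nonneg _)
    · have g3 : ¬ ((2 + ε / 2) * phiQ Q q * Real.log q ^ 2 < P {k | ω ∈ A k} Q q) := fun h =>
        g2 ((real_lt_P_iff hq0 ω (hq₀ q hq) (by linarith)).1 h)
      push Not at g3
      refine lt_of_le_of_lt g3 ?_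
      have g4 : (0 : ℝ) < phiQ Q q := by
        rw [phiQ_eq]
        have : 0 < (Pool.Agent.R528.RM.adm Q q).card := Finset.card_pos.2 ⟨1, Pool.Agent.R528.RM.adm_nonempty hq1⟩
        exact_mod_cast this
      have g5 : 0 < Real.log (q : ℝ) := Real.log_pos (by exact_mod_cast hq1)
      have g6 : 0 < ε / 2 * phiQ Q q * Real.log q ^ 2 := by positivity
      linarith
  · intro c hc1 hc2
    have hcmp : ∀ X : ℕ, exceptional {k | ω ∈ A k} Q c X ≤ q₀ + 1 + Pool.Agent.R528.RM.CX A Q c X ω ∧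
        Pool.Agent.R528.RM.CX A Q c X ω ≤ q₀ + 1 + exceptional {k | ω ∈ A k} Q c X := by
      intro X
      have e1 : {q : ℕ | q ≤ X ∧ c * phiQ Q q * Real.log q ^ 2 < P {k | ω ∈ A k} Q q} =
          ((Finset.range (X + 1)).filter (fun q => c * phiQ Q q * Real.log q ^ 2 < P {k | ω ∈ A k} Q q) : Finset ℕ) := by
        ext q
        simp only [Set.mem_ofPred_eq, Finset.coe_filter, Finset.mem_range, Nat.lt_succ_iff]
      unfold exceptional Pool.Agent.R528.RM.CX
      rw [e1, Set.ncard_coe_finset]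
      have key : ∀ q, q₀ + 1 ≤ q → (c * phiQ Q q * Real.log q ^ 2 < P {k | ω ∈ A k} Q q ↔
          ω ∈ Pool.Agent.R528.RM.SvE A Q q (Pool.Agent.R528.RM.TT Q c q)) := fun q hq =>
        real_lt_P_iff (by omega) ω (hq₀ q (by omega)) (by linarith)
      constructor
      · have g1 : (Finset.range (X + 1)).filter (fun q => c * phiQ Q q * Real.log q ^ 2 < P {k | ω ∈ A k} Q q) ⊆
            Finset.range (q₀ + 1) ∪ (Finset.range (X + 1)).filter (fun q => ω ∈ Pool.Agent.R528.RM.SvE A Q q (Pool.Agent.R528.RM.TT Q c q)) := by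
          intro q hq
          rw [Finset.mem_filter] at hq
          rw [Finset.mem_union, Finset.mem_range, Finset.mem_filter]
          by_cases h : q < q₀ + 1
          · exact Or.inl h
          · exact Or.inr ⟨hq.1, (key q (by omega)).1 hq.2⟩
        have g2 := (Finset.card_le_card g1).trans (Finset.card_union_le _ _)
        rwa [Finset.card_range] at g2
      · have g1 : (Finset.range (X + 1)).filter (fun q => ω ∈ Pool.Agent.R528.RM.SvE A Q q (Pool.Agent.R528.RM.TT Q c q)) ⊆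
            Finset.range (q₀ + 1) ∪ (Finset.range (X + 1)).filter (fun q => c * phiQ Q q * Real.log q ^ 2 < P {k | ω ∈ A k} Q q) := by
          intro q hq
          rw [Finset.mem_filter] at hq
          rw [Finset.mem_union, Finset.mem_range, Finset.mem_filter]
          by_cases h : q < q₀ + 1
          · exact Or.inl h
          · exact Or.inr ⟨hq.1, (key q (by omega)).2 hq.2⟩
        have g2 := (Finset.card_le_card g1).trans (Finset.card_union_le _ _)
        rwa [Finset.card_range] at g2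
    apply lim_of_bounds
    intro ε hε
    set ε' : ℝ := min (ε / 2) ((2 - c) / 2) with hε'
    have hε'0 : 0 < ε' := lt_min (by linarith) (by linarith)
    have hε'1 : ε' ≤ ε / 2 := min_le_left _ _
    have hε'2 : ε' ≤ (2 - c) / 2 := min_le_right _ _
    filter_upwards [h3 c hc1 hc2 ε' hε'0, Pool.Agent.R528.RM.ev_pow (a := 2 - c - ε) (b := 2 - c - ε') (by linarith) (q₀ + 3),
      Pool.Agent.R528.RM.ev_pow (a := 2 - c + ε') (b := 2 - c + ε) (by linarith) (q₀ + 3),
      Pool.Agent.R528.RM.ev_pow (a := 0) (b := 2 - c - ε') (by linarith) (2 * (q₀ + 1)),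
      Pool.Agent.R528.RM.ev_log 0, eventually_ge_atTop 1] with X g1 g2 g3 g3' g4 g5
    have hX : (1 : ℝ) ≤ X := by exact_mod_cast g5
    obtain ⟨g6, g7⟩ := hcmp X
    have g6' : (exceptional {k | ω ∈ A k} Q c X : ℝ) ≤ q₀ + 1 + Pool.Agent.R528.RM.CX A Q c X ω := by exact_mod_cast g6
    have g7' : (Pool.Agent.R528.RM.CX A Q c X ω : ℝ) ≤ q₀ + 1 + exceptional {k | ω ∈ A k} Q c X := by exact_mod_cast g7
    have hq00 : (0 : ℝ) ≤ q₀ := Nat.cast_nonneg _
    have p1 : 0 < (X : ℝ) ^ (2 - c - ε) := Real.rpow_pos_of_pos (by linarith) _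
    have p2 : 1 ≤ (X : ℝ) ^ (2 - c + ε') := Real.one_le_rpow hX (by linarith)
    constructor
    · -- lower bound
      rw [Real.rpow_zero, mul_one] at g3'
      have q1 : 2 * (X : ℝ) ^ (2 - c - ε) ≤ (X : ℝ) ^ (2 - c - ε') := by
        refine le_trans ?_ g2
        apply mul_le_mul_of_nonneg_right _ p1.le
        nlinarith only [mul_nonneg hq00 g4, g4, hq00]
      have q2 : 2 * ((q₀ : ℝ) + 1) ≤ (X : ℝ) ^ (2 - c - ε') := by
        refine le_trans ?_ g3'
        nlinarith only [mul_nonneg hq00 g4, g4, hq00]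
      linarith only [g1.1, g7', q1, q2]
    · have q1 : ((q₀ : ℝ) + 2) * (X : ℝ) ^ (2 - c + ε') ≤ (X : ℝ) ^ (2 - c + ε) := by
        refine le_trans ?_ g3
        apply mul_le_mul_of_nonneg_right _ (by linarith only [p2])
        nlinarith only [mul_nonneg hq00 g4, g4, hq00]
      have q2 : ((q₀ : ℝ) + 1) * 1 ≤ ((q₀ : ℝ) + 1) * (X : ℝ) ^ (2 - c + ε') :=
        mul_le_mul_of_nonneg_left p2 (by linarith only [hq00])
      linarith only [g1.2, g6', q1, q2]
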